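import Mathlib
import Pool.Agent.Y667.RP.Rk
import Pool.Agent.Y667.RP.Disc
import Pool.Agent.W307.RT.Tors

/-!
# A positive proportion of the curves with full rational 2-torsion has rank at most one

All elliptic curves over `ℚ` with full rational 2-torsion, ordered by the absolute value of the
minimal discriminant. A positive proportion has a 2-Selmer group of order at most 8, hence rank at
most one.
-/

namespace Pool.Agent.Y667.Old.SmallSelmerDiscriminant

open Finset Filter Topology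

/-- the curve `y² = x³ + A x + B` over `ℚ` -/
def E (A B : ℤ) : WeierstrassCurve ℚ := ⟨0, 0, 0, (A : ℚ), (B : ℚ)⟩

/-- the absolute value of the minimal discriminant of an elliptic curve `W` over `ℚ`: the smallest
absolute value of the discriminant of a Weierstrass equation `V` with integer coefficients which is
isomorphic to `W` over `ℚ` -/
noncomputable def minDisc (W : WeierstrassCurve ℚ) : ℕ :=
  sInf {n : ℕ | ∃ (V : WeierstrassCurve ℤ) (C : WeierstrassCurve.VariableChange ℚ),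
    C • W = V.map (Int.castRingHom ℚ) ∧ n = V.Δ.natAbs}

/-- The pairs `(A, B)` of integers such that `4 A³ + 27 B² ≠ 0`, there is no prime `p` with
`p⁴ ∣ A` and `p⁶ ∣ B`, the minimal discriminant of `y² = x³ + A x + B` is at most `D`, and
`Z/2 x Z/2` embeds in the group of its rational points. (Every elliptic curve over `ℚ` is
isomorphic to `E A B` for exactly one pair with the first two properties.) -/
def Fam (D : ℕ) : Set (ℤ × ℤ) :=
  {c : ℤ × ℤ | 4 * c.1 ^ 3 + 27 * c.2 ^ 2 ≠ 0 ∧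
    (∀ p : ℕ, p.Prime → ¬ ((p : ℤ) ^ 4 ∣ c.1 ∧ (p : ℤ) ^ 6 ∣ c.2)) ∧
    (∃ f : ZMod 2 × ZMod 2 →+ (E c.1 c.2).toAffine.Point, Function.Injective f) ∧
    minDisc (E c.1 c.2) ≤ D}

/-- the Mordell-Weil rank -/
noncomputable def rank (c : ℤ × ℤ) : ℕ := Module.finrank ℤ (E c.1 c.2).toAffine.Point

/-- The local condition at a completion `K` of `ℚ`: there is a point `(x, y)`, `y ≠ 0`, of
`y² = x³ + A x + B` over `K` such that `(x - e) * d e` is a square for all the integer roots `e` of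
`x³ + A x + B`. (Every class of `E(K) / 2 E(K)` contains a point with `y ≠ 0`.) -/
def Local (K : Type) [Field K] (A B : ℤ) (d : ℤ → ℤ) : Prop :=
  ∃ x y : K, y ≠ 0 ∧ y ^ 2 = x ^ 3 + A * x + B ∧
    ∀ e : ℤ, e ^ 3 + A * e + B = 0 → IsSquare ((x - e) * d e)

/-- The 2-Selmer group of `y² = x³ + A x + B`, a curve with three integer roots. As `E[2]` is the
group of the families of signs with product one indexed by the roots, an element of the 2-Selmer
group is a family of classes of nonzero rational numbers modulo squares indexed by the roots `e`,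
given by squarefree integers `d e` (`d e = 1` if `e` is not a root), which over `ℝ` and over `ℚ_[p]`
for all primes `p` is the family of the classes of `x - e` for a point of the curve. -/
def Sel2 (A B : ℤ) : Set (ℤ → ℤ) :=
  {d | (∀ e, Squarefree (d e)) ∧ (∀ e : ℤ, e ^ 3 + A * e + B ≠ 0 → d e = 1) ∧ Local ℝ A B d ∧
    ∀ (p : ℕ) [Fact p.Prime], Local ℚ_[p] A B d}

/-- the proportion of the curves of `S` among the curves of minimal discriminant at most `D` -/
noncomputable def proportion (S : Set (ℤ × ℤ)) (D : ℕ) : ℝ :=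
  ((Fam D ∩ S).ncard : ℝ) / (Fam D).ncard

lemma Fam_eq (D : ℕ) : Fam D = (Pool.Agent.TH344.DS.Dv D : Set (ℤ × ℤ)) := by
  classical
  have h0 : Fam D = Pool.Agent.W307.RS.DvS 2 D := by
    ext c
    have h : Pool.Agent.W307.RT.HasT 2 (Pool.Agent.W307.RT.Sh c.1 c.2) ↔
        ∃ f : ZMod 2 × ZMod 2 →+ (E c.1 c.2).toAffine.Point, Function.Injective f :=
      Pool.Agent.W307.RT.tors_iff
    unfold Fam Pool.Agent.W307.RS.DvS
    rw [Set.mem_ofPred_eq, Set.mem_ofPred_eq, h]
    exact Iff.rfl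
  rw [h0]
  unfold Pool.Agent.TH344.DS.Dv
  rw [dif_pos (Pool.Agent.TH344.DS.excd.1 D), Set.Finite.coe_toFinset]

lemma Fam_ncard (D : ℕ) : (Fam D).ncard = (Pool.Agent.TH344.DS.Dv D).card := by
  rw [Fam_eq, Set.ncard_coe_finset]

lemma mem_Fam {D : ℕ} {c : ℤ × ℤ} (hc : c ∈ Fam D) :
    4 * c.1 ^ 3 + 27 * c.2 ^ 2 ≠ 0 ∧ Pool.Agent.W307.RT.HasT 2 (Pool.Agent.W307.RT.Sh c.1 c.2) := by
  have h : Pool.Agent.W307.RT.HasT 2 (Pool.Agent.W307.RT.Sh c.1 c.2) ↔
      ∃ f : ZMod 2 × ZMod 2 →+ (E c.1 c.2).toAffine.Point, Function.Injective f :=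
    Pool.Agent.W307.RT.tors_iff
  exact ⟨hc.1, h.2 hc.2.2.1⟩

/-- **Theorem.** The number of the elliptic curves over `ℚ` with full rational 2-torsion and minimal
discriminant at most `D` in absolute value is finite and tends to infinity with `D`. A positive
proportion of these curves (the lower density is positive) has a finite 2-Selmer group of order at
most 8 and rank at most one. -/
theorem result :
    (∀ D : ℕ, (Fam D).Finite) ∧ Tendsto (fun D : ℕ => (Fam D).ncard) atTop atTop ∧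
    ∃ δ : ℝ, 0 < δ ∧ ∀ᶠ D : ℕ in atTop,
      δ ≤ proportion {c | (Sel2 c.1 c.2).Finite ∧ (Sel2 c.1 c.2).ncard ≤ 8 ∧ rank c ≤ 1} D := by
  classical
  obtain ⟨hD1, hD2, hD3⟩ := Pool.Agent.TH344.DS.excd
  have ht : Tendsto (fun D : ℕ => (Fam D).ncard) atTop atTop := by
    have h1 := Pool.Agent.W307.RT.tendsto_of_low Pool.Agent.W672.FK.lowf
    have h2 : Tendsto (fun D : ℕ => (Pool.Agent.W307.RT.Cv 2 (D / 32)).card) atTop atTop :=
      h1.comp (Nat.tendsto_div_const_atTop (by norm_num))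
    refine tendsto_atTop_mono (fun D => ?_) h2
    have h3 : (Pool.Agent.TH344.DS.Dv D : Set (ℤ × ℤ)) = Pool.Agent.W307.RS.DvS 2 D := by
      unfold Pool.Agent.TH344.DS.Dv
      rw [dif_pos (hD1 D), Set.Finite.coe_toFinset]
    rw [Fam_eq, h3, ← Set.ncard_coe_finset]
    exact Set.ncard_le_ncard (Pool.Agent.W307.RS.Cv_sub Pool.Agent.W554.RS.mdl 2 (D / 32) D
      (Nat.mul_div_le D 32)) (hD1 D)
  refine ⟨fun D => ?_, ht, ?_⟩
  · rw [Fam_eq]
    exact finite_toSet _
  · obtain ⟨P, hP⟩ : ∃ P : ℤ × ℤ → Prop, P = fun k : ℤ × ℤ =>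
        (Pool.Agent.W307.SE.SelR k.1 k.2).Finite ∧
          (Pool.Agent.W307.SE.SelR k.1 k.2).ncard ≤ 8 := ⟨_, rfl⟩
    have h0 : ∃ c : ℝ, 0 < c ∧ ∃ H0 : ℕ, ∀ H : ℕ, H0 ≤ H →
        c * ((Pool.Agent.W307.RT.Cv 2 H).card : ℝ) ≤
          (((Pool.Agent.W307.RT.Cv 2 H).filter P).card : ℝ) := by
      obtain ⟨c, hc, H0, h⟩ := Pool.Agent.Y667.RP.curves
      refine ⟨c, hc, H0, fun H hH => (h H hH).trans (Nat.cast_le.2 (card_le_card fun k hk => ?_))⟩
      rw [mem_filter] at hk ⊢
      rw [hP]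
      exact hk
    obtain ⟨c, hc, Z0, h⟩ := Pool.Agent.Y667.RP.disc_of_height P h0
    refine ⟨c, hc, ?_⟩
    filter_upwards [eventually_ge_atTop Z0, ht.eventually_ge_atTop 1] with D hD hD1'
    have h1 := h D hD
    have h2 : (Fam D ∩ {c | (Sel2 c.1 c.2).Finite ∧ (Sel2 c.1 c.2).ncard ≤ 8 ∧ rank c ≤ 1}) =
        (((Pool.Agent.TH344.DS.Dv D).filter P : Finset (ℤ × ℤ)) : Set (ℤ × ℤ)) := by
      ext k
      rw [coe_filter, Set.mem_inter_iff, Set.mem_ofPred_eq, Set.mem_ofPred_eq, hP]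
      constructor
      · rintro ⟨q1, q2, q3, -⟩
        refine ⟨?_, q2, q3⟩
        rw [Fam_eq, mem_coe] at q1
        exact q1
      · rintro ⟨q1, q2, q3⟩
        have q4 : k ∈ Fam D := by
          rw [Fam_eq, mem_coe]
          exact q1
        refine ⟨q4, q2, q3, ?_⟩
        obtain ⟨q5, q6⟩ := mem_Fam q4
        exact Pool.Agent.Y667.RP.rank_le_one q5 q6 q2 q3
    unfold proportion
    rw [h2, Set.ncard_coe_finset, Fam_ncard, le_div_iff₀]
    · exact h1
    · rw [Fam_ncard] at hD1'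
      exact_mod_cast hD1'

end Pool.Agent.Y667.Old.SmallSelmerDiscriminant
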