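import Mathlib
import Pool.Agent.Y667.RP.Rk
import Pool.Agent.W672.FK.Lowf
import Pool.Agent.W307.RT.Tors

/-!
# A positive proportion of the curves with full rational 2-torsion has rank at most one

All elliptic curves over `ℚ` with full rational 2-torsion, ordered by height. A positive proportion
has a 2-Selmer group of order at most 8, hence rank at most one.
-/

namespace Pool.Agent.Y667.Old.SmallSelmerProportion

open Finset Filter Topology

/-- the curve `y² = x³ + A x + B` over `ℚ` -/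
def E (A B : ℤ) : WeierstrassCurve ℚ := ⟨0, 0, 0, (A : ℚ), (B : ℚ)⟩

/-- The pairs `(A, B)` of integers such that `4 A³ + 27 B² ≠ 0`, there is no prime `p` with
`p⁴ ∣ A` and `p⁶ ∣ B`, `Z/2 x Z/2` embeds in the group of the rational points of
`y² = x³ + A x + B`, and the height `max (4 |A|³) (27 B²)` is at most `H`. Every elliptic curve over
`ℚ` with full rational 2-torsion is isomorphic to `E A B` for exactly one pair with the first three
properties. -/
def Fam (H : ℕ) : Set (ℤ × ℤ) :=
  {c : ℤ × ℤ | 4 * c.1 ^ 3 + 27 * c.2 ^ 2 ≠ 0 ∧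
    (∀ p : ℕ, p.Prime → ¬ ((p : ℤ) ^ 4 ∣ c.1 ∧ (p : ℤ) ^ 6 ∣ c.2)) ∧
    (∃ f : ZMod 2 × ZMod 2 →+ (E c.1 c.2).toAffine.Point, Function.Injective f) ∧
    4 * |c.1| ^ 3 ≤ H ∧ 27 * c.2 ^ 2 ≤ H}

/-- the Mordell-Weil rank -/
noncomputable def rank (c : ℤ × ℤ) : ℕ := Module.finrank ℤ (E c.1 c.2).toAffine.Point

/-- The local condition at a completion `K` of `ℚ`: there is a point `(x, y)`, `y ≠ 0`, of
`y² = x³ + A x + B` over `K` such that `(x - e) * d e` is a square for all the integer roots `e` of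
`x³ + A x + B`. (Every class of `E(K) / 2 E(K)` contains a point with `y ≠ 0`.) -/
def Local (K : Type) [Field K] (A B : ℤ) (d : ℤ → ℤ) : Prop :=
  ∃ x y : K, y ≠ 0 ∧ y ^ 2 = x ^ 3 + A * x + B ∧
    ∀ e : ℤ, e ^ 3 + A * e + B = 0 → IsSquare ((x - e) * d e)

/-- The 2-Selmer group of `y² = x³ + A x + B`, a curve with three integer roots. As `E[2]` is the
group of the families of signs with product one indexed by the roots, an element of the 2-Selmer
group is a family of classes of nonzero rational numbers modulo squares indexed by the roots `e`,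
given by squarefree integers `d e` (`d e = 1` if `e` is not a root), which over `ℝ` and over `ℚ_[p]`
for all primes `p` is the family of the classes of `x - e` for a point of the curve. -/
def Sel2 (A B : ℤ) : Set (ℤ → ℤ) :=
  {d | (∀ e, Squarefree (d e)) ∧ (∀ e : ℤ, e ^ 3 + A * e + B ≠ 0 → d e = 1) ∧ Local ℝ A B d ∧
    ∀ (p : ℕ) [Fact p.Prime], Local ℚ_[p] A B d}

/-- the proportion of the curves of `S` among the curves of height at most `H` -/
noncomputable def proportion (S : Set (ℤ × ℤ)) (H : ℕ) : ℝ :=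
  ((Fam H ∩ S).ncard : ℝ) / (Fam H).ncard

lemma Fam_eq (H : ℕ) : Fam H = (Pool.Agent.W307.RT.Cv 2 H : Set (ℤ × ℤ)) := by
  classical
  ext c
  have h : Pool.Agent.W307.RT.HasT 2 (Pool.Agent.W307.RT.Sh c.1 c.2) ↔
    ∃ f : ZMod 2 × ZMod 2 →+ (E c.1 c.2).toAffine.Point, Function.Injective f :=
    Pool.Agent.W307.RT.tors_iff
  unfold Fam Pool.Agent.W307.RT.Cv
  rw [Set.mem_ofPred_eq, mem_coe, mem_filter, h, mem_product, mem_Icc, mem_Icc]
  constructor
  · rintro ⟨h1, h2, h3, h4, h5⟩
    refine ⟨⟨?_, ?_⟩, h1, h4, h5, h2, h3⟩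
    · rw [← abs_le]
      have h0 := abs_nonneg c.1
      rcases eq_or_lt_of_le h0 with h6 | h6
      · rw [← h6]; positivity
      · have : 1 ≤ |c.1| := h6
        nlinarith [mul_nonneg h0 h0, mul_self_nonneg (|c.1| - 1)]
    · rw [← abs_le]
      have h0 := abs_nonneg c.2
      rw [← sq_abs] at h5
      rcases eq_or_lt_of_le h0 with h6 | h6
      · rw [← h6]; positivity
      · have : 1 ≤ |c.2| := h6
        nlinarith
  · rintro ⟨-, h1, h4, h5, h2, h3⟩
    exact ⟨h1, h2, h3, h4, h5⟩

lemma Fam_ncard (H : ℕ) : (Fam H).ncard = (Pool.Agent.W307.RT.Cv 2 H).card := by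
  rw [Fam_eq, Set.ncard_coe_finset]

/-- **Theorem.** The number of the elliptic curves over `ℚ` with full rational 2-torsion and height
at most `H` is finite and tends to infinity with `H`. A positive proportion of these curves (the
lower density is positive) has a finite 2-Selmer group of order at most 8 and rank at most one. -/
theorem result :
    (∀ H : ℕ, (Fam H).Finite) ∧ Tendsto (fun H : ℕ => (Fam H).ncard) atTop atTop ∧
    ∃ δ : ℝ, 0 < δ ∧ ∀ᶠ H : ℕ in atTop,
      δ ≤ proportion {c | (Sel2 c.1 c.2).Finite ∧ (Sel2 c.1 c.2).ncard ≤ 8 ∧ rank c ≤ 1} H := by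
  classical
  have ht : Tendsto (fun H : ℕ => (Fam H).ncard) atTop atTop := by
    simp only [Fam_ncard]
    exact Pool.Agent.W307.RT.tendsto_of_low Pool.Agent.W672.FK.lowf
  refine ⟨fun H => ?_, ht, ?_⟩
  · rw [Fam_eq]
    exact finite_toSet _
  · obtain ⟨c, hc, H0, h⟩ := Pool.Agent.Y667.RP.curves
    refine ⟨c, hc, ?_⟩
    filter_upwards [eventually_ge_atTop H0, ht.eventually_ge_atTop 1] with H hH hH1
    have h1 := h H hH
    have h2 : (Fam H ∩ {c | (Sel2 c.1 c.2).Finite ∧ (Sel2 c.1 c.2).ncard ≤ 8 ∧ rank c ≤ 1}) =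
        (((Pool.Agent.W307.RT.Cv 2 H).filter (fun k : ℤ × ℤ =>
          (Pool.Agent.W307.SE.SelR k.1 k.2).Finite ∧
          (Pool.Agent.W307.SE.SelR k.1 k.2).ncard ≤ 8) : Finset (ℤ × ℤ)) : Set (ℤ × ℤ)) := by
      rw [Fam_eq]
      ext k
      rw [coe_filter, Set.mem_inter_iff, Set.mem_ofPred_eq, Set.mem_ofPred_eq, mem_coe]
      constructor
      · rintro ⟨q1, q2, q3, -⟩
        exact ⟨q1, q2, q3⟩
      · rintro ⟨q1, q2, q3⟩
        refine ⟨q1, q2, q3, ?_⟩
        have q4 := q1
        unfold Pool.Agent.W307.RT.Cv at q4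
        rw [mem_filter] at q4
        exact Pool.Agent.Y667.RP.rank_le_one q4.2.1 q4.2.2.2.2.2 q2 q3
    unfold proportion
    rw [h2, Set.ncard_coe_finset, Fam_ncard, le_div_iff₀]
    · exact h1
    · rw [Fam_ncard] at hH1
      exact_mod_cast hH1

end Pool.Agent.Y667.Old.SmallSelmerProportion
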